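import Pool.Agent.H14.PNF.S6
import Pool.Agent.H49.PRK.GDFK

/-!
# PNF, row GDFN: almost all polynomials of the family are good (over number fields)
-/

set_option autoImplicit false

namespace Pool.PNF

open Polynomial Matrix NumberField IsDedekindDomain Pool.HYP Pool.TOW Pool.AVS Pool.T1 Pool.NF
  Pool.PRK Pool.PRK.GDFKaux

/-- **GDFN.** -/
theorem gdfn : GDFNStmt := by
  classical
  intro K _ _ T' A C b hBLC hAvP hFam hDen hA ε η hε hη
  obtain ⟨cF, hFam⟩ := hFam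
  obtain ⟨C', hC'⟩ : ∃ C' : ℝ, C' = max C 0 := ⟨_, rfl⟩
  have hC0 : 0 ≤ C' := by rw [hC']; exact le_max_right _ _
  have hCC : C ≤ C' := by rw [hC']; exact le_max_left _ _
  set κ : ℝ := 2 * C' + 1 with hκdef
  have hκ : 0 < κ := by positivity
  obtain ⟨k1, hk1⟩ := hBLC (ε * η / (8 * κ)) η (by positivity) hη
  obtain ⟨k2, hk2⟩ := exists_nat_gt (2 * κ / ε)
  refine ⟨max k1 k2, ?_⟩
  intro D j hD hDT' hcard hj hNm ϖ hϖ
  have hj1 : k1 ≤ j := (le_max_left _ _).trans hj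
  have hj2 : k2 ≤ j := (le_max_right _ _).trans hj
  have hXcard : Fintype.card {P : HeightOneSpectrum (𝓞 K) // P ∈ D.T} = D.T.card :=
    Fintype.card_coe D.T
  -- one bound for all the patterns
  have hN : ∀ m : {P : HeightOneSpectrum (𝓞 K) // P ∈ D.T} → Ty, ∃ h₀ : ℕ,
      (∀ v, m v ≠ (1, 1)) → ∀ h : ℕ, h₀ ≤ h →
      2 ^ D.T.card * ({f ∈ FamN D h | PatN D ϖ (ex D.T m) f}.ncard : ℝ) ≤
        C' * (FamN D h).ncard := by
    intro m
    by_cases hm : ∀ v, m v ≠ (1, 1)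
    · obtain ⟨h₀, hh₀⟩ := hAvP D hD hDT' hNm ϖ hϖ (ex D.T m) (ex_ne D.T m hm)
      exact ⟨h₀, fun _ h hh => (hh₀ h hh).trans
        (mul_le_mul_of_nonneg_right hCC (Nat.cast_nonneg _))⟩
    · exact ⟨0, fun h => absurd h hm⟩
  choose NN hNN using hN
  obtain ⟨h₁, hh₁⟩ := hDen D hD (hDT' ▸ hA)
  obtain ⟨h₂, hh₂⟩ := hFam D hD
  refine ⟨max (max (Finset.univ.sup NN) h₁) h₂, ?_⟩
  intro h hh
  have hn' : ∀ m, NN m ≤ h := fun m =>
    (Finset.le_sup (Finset.mem_univ m)).trans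
      ((le_max_left _ _).trans ((le_max_left _ _).trans hh))
  have hsm := hh₁ h ((le_max_right _ _).trans ((le_max_left _ _).trans hh))
  have h0ne : ∀ v, (0 : {P : HeightOneSpectrum (𝓞 K) // P ∈ D.T} → Ty) v ≠ (1, 1) := by
    intro v h
    have h1 := congrArg Prod.fst h
    simp at h1
  have hFf : (FamN D h).Finite := (hh₂ h ((le_max_right _ _).trans hh)).1
  have hsubF : FamSN D h ⊆ FamN D h := fun f hf => hf.1
  have hfin : (FamSN D h).Finite := hFf.subset hsubF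
  set Φ : Set (𝓞 K)[X] := FamSN D h with hΦ
  -- the family is at most twice as large as its smooth part
  have htwo : ((FamN D h).ncard : ℝ) ≤ 2 * Φ.ncard := by
    have e1 : FamN D h = Φ ∪ {f ∈ FamN D h | ¬ Smooth f} := by
      ext f
      constructor
      · intro hf
        by_cases hs : Smooth f
        · exact Or.inl ⟨hf, hs⟩
        · exact Or.inr ⟨hf, hs⟩
      · rintro (hf | hf)
        · exact hf.1
        · exact hf.1
    have e2 := Set.ncard_union_le Φ {f ∈ FamN D h | ¬ Smooth f}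
    rw [← e1] at e2
    have e3 : (FamN D h).ncard ≤ 2 * Φ.ncard := by omega
    exact_mod_cast e3
  -- the number of elements with a given pattern
  have hpat : ∀ m : {P : HeightOneSpectrum (𝓞 K) // P ∈ D.T} → Ty, (∀ v, m v ≠ (1, 1)) →
      ({f | f ∈ Φ ∧ PatN D ϖ (ex D.T m) f}.ncard : ℝ) ≤ κ / 2 ^ D.T.card * Φ.ncard := by
    intro m hm
    have e1 := hNN m hm h (hn' m)
    have e2 : {f | f ∈ Φ ∧ PatN D ϖ (ex D.T m) f}.ncard ≤
        {f ∈ FamN D h | PatN D ϖ (ex D.T m) f}.ncard :=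
      Set.ncard_le_ncard (fun f hf => ⟨hsubF hf.1, hf.2⟩) (hFf.subset fun f hf => hf.1)
    have e3 : (2 : ℝ) ^ D.T.card * ({f | f ∈ Φ ∧ PatN D ϖ (ex D.T m) f}.ncard : ℝ) ≤
        κ * Φ.ncard := by
      have e4 : (2 : ℝ) ^ D.T.card * ({f ∈ FamN D h | PatN D ϖ (ex D.T m) f}.ncard : ℝ) ≤
          C' * (FamN D h).ncard := e1
      have e5 : (2 : ℝ) ^ D.T.card * ({f | f ∈ Φ ∧ PatN D ϖ (ex D.T m) f}.ncard : ℝ) ≤
          (2 : ℝ) ^ D.T.card * ({f ∈ FamN D h | PatN D ϖ (ex D.T m) f}.ncard : ℝ) :=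
        mul_le_mul_of_nonneg_left (by exact_mod_cast e2) (by positivity)
      have e6 : C' * (FamN D h).ncard ≤ C' * (2 * Φ.ncard) :=
        mul_le_mul_of_nonneg_left htwo hC0
      have e7 : (0 : ℝ) ≤ (Φ.ncard : ℝ) := Nat.cast_nonneg _
      rw [hκdef]
      linarith
    rw [div_mul_eq_mul_div, le_div_iff₀ (by positivity), mul_comm]
    exact e3
  -- first bad set
  have hA0 : ({f | f ∈ Φ ∧ PatN D ϖ (fun _ => 0) f}.ncard : ℝ) ≤ ε / 2 * Φ.ncard := by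
    have h3 := hpat 0 h0ne
    rw [ex_zero] at h3
    refine h3.trans (mul_le_mul_of_nonneg_right ?_ (Nat.cast_nonneg _))
    rw [div_le_div_iff₀ (by positivity) (by norm_num)]
    have h9 : (k2 : ℝ) ≤ 2 ^ D.T.card := by
      have h10 : k2 < 2 ^ D.T.card := by
        calc k2 ≤ D.T.card := by omega
          _ < 2 ^ D.T.card := Nat.lt_two_pow_self
      exact_mod_cast h10.le
    have h11 : 2 * κ / ε < 2 ^ D.T.card := hk2.trans_le h9
    rw [div_lt_iff₀ hε] at h11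
    linarith
  -- the second bad set
  have hB0 : ({f | f ∈ Φ ∧ ¬ (({S : Finset {P : HeightOneSpectrum (𝓞 K) // P ∈ D.T} |
      S ∈ PRL.sl Finset.univ ∅ j ∪ PRL.sl Finset.univ ∅ (j + 1) ∧
      ∃ m : {P : HeightOneSpectrum (𝓞 K) // P ∈ D.T} → Ty, m ≠ 0 ∧ m ∈ PRL.LS S ∧
        ¬ PRL.Bal η Finset.univ S m ∧ PatN D ϖ (ex D.T m) f}.ncard : ℝ) ≤
      η * ((2 * j + 1).choose j : ℝ))}.ncard : ℝ) ≤ ε / 4 * Φ.ncard := by
    refine one Φ hfin (fun f m => PatN D ϖ (ex D.T m) f)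
      (fun f m => if PatN D ϖ (ex D.T m) f then 1 else 0) Finset.univ ∅ j ?_ η ε κ hη hε hκ
      (fun f _ m => ?_) ?_ ?_ ?_
    · rw [Finset.card_univ, hXcard, hcard]
    · show (0 : ℝ) ≤ if PatN D ϖ (ex D.T m) f then 1 else 0
      split_ifs
      · exact zero_le_one
      · exact le_rfl
    · intro f _ m _ hQ
      have hQ' : PatN D ϖ (ex D.T m) f := hQ
      show (1 : ℝ) ≤ if PatN D ϖ (ex D.T m) f then 1 else 0
      rw [if_pos hQ']
    · intro m hm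
      rw [hXcard, finsum_mem_eq_finite_toFinset_sum _ hfin, Finset.sum_boole]
      have e1 : {f | f ∈ Φ ∧ PatN D ϖ (ex D.T m) f} =
          ((hfin.toFinset.filter fun f => PatN D ϖ (ex D.T m) f : Finset (𝓞 K)[X]) :
            Set (𝓞 K)[X]) := by
        ext f
        simp
      have e2 := hpat m hm
      rw [e1, Set.ncard_coe_finset] at e2
      exact e2
    · intro S
      exact hk1 _ Finset.univ S (by rw [Finset.card_univ, hXcard, hcard]; omega)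
  have hsub : {f | f ∈ Φ ∧ ¬ GoodN η D ϖ j f} ⊆
      {f | f ∈ Φ ∧ PatN D ϖ (fun _ => 0) f} ∪
      {f | f ∈ Φ ∧ ¬ (({S : Finset {P : HeightOneSpectrum (𝓞 K) // P ∈ D.T} |
      S ∈ PRL.sl Finset.univ ∅ j ∪ PRL.sl Finset.univ ∅ (j + 1) ∧
      ∃ m : {P : HeightOneSpectrum (𝓞 K) // P ∈ D.T} → Ty, m ≠ 0 ∧ m ∈ PRL.LS S ∧
        ¬ PRL.Bal η Finset.univ S m ∧ PatN D ϖ (ex D.T m) f}.ncard : ℝ) ≤
      η * ((2 * j + 1).choose j : ℝ))} := by
    rintro f ⟨hf, hG⟩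
    by_contra hcon
    simp only [Set.mem_union, Set.mem_ofPred_eq, not_or, not_and, not_not] at hcon
    exact hG ⟨hcon.1 hf, hcon.2 hf⟩
  have hfs : ∀ p : (𝓞 K)[X] → Prop, ({f | f ∈ Φ ∧ p f} : Set (𝓞 K)[X]).Finite := fun p =>
    hfin.subset fun f hf => hf.1
  have h12 := Set.ncard_le_ncard hsub ((hfs _).union (hfs _))
  have h13 := h12.trans (Set.ncard_union_le _ _)
  have h15 : (({f | f ∈ Φ ∧ ¬ GoodN η D ϖ j f}.ncard : ℕ) : ℝ) ≤ _ := Nat.cast_le.2 h13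
  push_cast at h15
  have e7 : (0 : ℝ) ≤ ε * (Φ.ncard : ℝ) := mul_nonneg hε.le (Nat.cast_nonneg _)
  linarith

end Pool.PNF
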